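import Pool.Agent.Helper27.BG.St1
import Pool.Agent.Helper90.MT.CntP

/-!
# BG module BIL: the bilinear form over the primes
-/

set_option autoImplicit false

noncomputable section

namespace Pool.Agent.Helper27.BG

open Finset
open Pool.Agent.Helper90.MT (lam mat wt szA prt szU VV DD piDD Ok EqD Avd HH Ytil offD MP MD TT)

open Classical in
private theorem bil_expand {α ι : Type} [Fintype α] [DecidableEq α] [Fintype ι] [DecidableEq ι]
    (pr : α → ℕ) (sh : ι → ℕ) (Y Y' : (α → Option ι) → ℝ) (R : Finset ℕ) (W v : ℕ)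
    (η : ℕ → ℝ) :
    ∑ n ∈ R.filter (fun n => n ≡ v [MOD W]), η n * (LF pr sh Y n * LF pr sh Y' n) =
      ∑ b, ∑ b', lam pr Y b * lam pr Y' b' *
        ∑ n ∈ R.filter (fun n => n ≡ v [MOD W] ∧ mat pr sh b n ∧ mat pr sh b' n), η n := by
  have h1 : ∀ n, η n * (LF pr sh Y n * LF pr sh Y' n) = ∑ b, ∑ b', lam pr Y b * lam pr Y' b' *
      (if mat pr sh b n ∧ mat pr sh b' n then η n else 0) := by
    intro n
    rw [LF, LF, sum_mul_sum, mul_sum]
    refine sum_congr rfl fun b _ => ?_
    rw [mul_sum]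
    refine sum_congr rfl fun b' _ => ?_
    by_cases hb : mat pr sh b n
    · by_cases hb' : mat pr sh b' n
      · rw [if_pos hb, if_pos hb', if_pos ⟨hb, hb'⟩]
        ring
      · rw [if_neg hb', if_neg (fun h : mat pr sh b n ∧ mat pr sh b' n => hb' h.2)]
        ring
    · rw [if_neg hb, if_neg (fun h : mat pr sh b n ∧ mat pr sh b' n => hb h.1)]
      ring
  simp only [h1]
  rw [sum_comm]
  refine sum_congr rfl fun b _ => ?_
  rw [sum_comm]
  refine sum_congr rfl fun b' _ => ?_
  rw [← mul_sum, ← sum_filter, filter_filter]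

theorem hBil : StBil := by
  classical
  intro α ι _ _ _ _ pr sh W v m Y Y' M Qm f E X hok hE hf hshm hEq hQ
  rw [bil_expand pr sh Y Y' (range (4 * M + 1)) W v (fun n => f (n + sh m)), mul_sum,
    ← sum_sub_distrib]
  refine (abs_sum_le_sum_abs _ _).trans (sum_le_sum fun b _ => ?_)
  rw [mul_sum, ← sum_sub_distrib]
  refine (abs_sum_le_sum_abs _ _).trans (sum_le_sum fun b' _ => ?_)
  by_cases hb : lam pr Y b = 0
  · simp [hb]
  by_cases hb' : lam pr Y' b' = 0
  · simp [hb']
  have h3 := Pool.Agent.Helper90.MT.cntP α ι pr sh (Fintype.card ι) W v m b b' M Qm f E X hok hE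
    hf hshm hEq (hQ b b' hb hb')
  set S := ∑ n ∈ (range (4 * M + 1)).filter
      (fun n => n ≡ v [MOD W] ∧ mat pr sh b n ∧ mat pr sh b' n), f (n + sh m) with hS
  have h4 : lam pr Y b * lam pr Y' b' * S - X / W.totient * ((∏ i, MP m (pr i) (b i) (b' i)) *
      (lam pr Y b * lam pr Y' b')) =
      (lam pr Y b * lam pr Y' b') * (S - X / W.totient * ∏ i, MP m (pr i) (b i) (b' i)) := by
    ring
  rw [h4, abs_mul, abs_mul]
  exact mul_le_mul_of_nonneg_left h3 (by positivity)

end Pool.Agent.Helper27.BG
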