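import Pool.Agent.Helper27.BG.St4

/-!
# BG module NMR: from the integer inequality to `NumR`
-/

set_option autoImplicit false

noncomputable section

namespace Pool.Agent.Helper27.BG

open Finset MeasureTheory

private theorem nmr_om (t : ℕ) (ht : t < 1055) : (57960 : ℝ) * om NN t = (omI t : ℝ) := by
  unfold om NN omI
  split_ifs <;> first | (exfalso; omega) | norm_num

private theorem nmr_mono : Monotone NN := by
  intro a b hab
  unfold NN
  split_ifs <;> first | (exfalso; omega) | norm_num

private theorem nmr_real (a S F : ℝ) (hF : 0 < F)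
    (h : 50 * 1000 * 10002 * 57960 * a < 49 * 2499 * S) :
    (10002 / 10000 : ℝ) * (a / (1000 ^ 49 * F)) <
      49 * (2499 / 10000) * ((S / 57960) / (1000 ^ 50 * (50 * F))) := by
  have hG : (0 : ℝ) < 1000 ^ 49 * F := by positivity
  have e : (1000 : ℝ) ^ 50 * (50 * F) = 50000 * (1000 ^ 49 * F) := by
    rw [pow_succ (1000 : ℝ) 49]; ring
  rw [e]
  generalize (1000 : ℝ) ^ 49 * F = G at hG
  have e2 : 49 * (2499 / 10000) * ((S / 57960) / (50000 * G)) - (10002 / 10000 : ℝ) * (a / G) =
      (49 * 2499 * S - 50 * 1000 * 10002 * 57960 * a) / (10000 * 57960 * 50000 * G) := by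
    field_simp
    ring
  have e3 : 0 < (49 * 2499 * S - 50 * 1000 * 10002 * 57960 * a) / (10000 * 57960 * 50000 * G) :=
    div_pos (by linarith) (by positivity)
  linarith

theorem hNmr : StNmr := by
  intro hEvi hEvo hIrw hCs1 hCs2 hNum
  refine ⟨NN, by simp [NN], nmr_mono, ?_⟩
  intro ι _ _ hι
  obtain ⟨hpos, hlt⟩ := hNum
  have hF : (0 : ℝ) < (Nat.factorial 49 : ℝ) := by exact_mod_cast Nat.factorial_pos 49
  have hI := hEvi hIrw hCs1 ι hι
  have hIpos : (0 : ℝ) < (Inum : ℝ) := by exact_mod_cast hpos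
  constructor
  · rw [hI]
    positivity
  · intro m
    have hO := hEvo hIrw hCs2 ι m hι (om NN)
    have hS : ∑ t ∈ range 1055, om NN t * (Dt t : ℝ) =
        ((∑ t ∈ range 1055, omI t * Dt t : ℤ) : ℝ) / 57960 := by
      push_cast
      rw [Finset.sum_div]
      refine Finset.sum_congr rfl fun t ht => ?_
      rw [← nmr_om t (Finset.mem_range.1 ht)]
      ring
    have hfac : (Nat.factorial 50 : ℝ) = 50 * (Nat.factorial 49 : ℝ) := by
      rw [Nat.factorial_succ 49]
      push_cast
      ring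
    have hlt' : (50 * 1000 * 10002 * 57960 * (Inum : ℝ)) <
        49 * 2499 * ((∑ t ∈ range 1055, omI t * Dt t : ℤ) : ℝ) := by
      exact_mod_cast hlt
    rw [hI, hO, hS, hfac]
    exact nmr_real _ _ _ hF hlt'

end Pool.Agent.Helper27.BG
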