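import Pool.Agent.Helper27.BG.St3

/-!
# BG module TWO: two primes among the shifts
-/

set_option autoImplicit false

noncomputable section

namespace Pool.Agent.Helper27.BG

open Finset MeasureTheory
open Pool.Agent.Helper90.MT (lam mat wt szA prt szU VV DD piDD Ok EqD Avd)
open Pool.Agent.Helper60.GP (IsB JJ)
open Pool.Agent.Helper15.AB (Th)

/-- trivial bound for the linear form -/
private theorem two_LF {α ι : Type} [Fintype α] [DecidableEq α] [Fintype ι] [DecidableEq ι]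
    (pr : α → ℕ) (sh : ι → ℕ) (Y : (α → Option ι) → ℝ) (n : ℕ) :
    |LF pr sh Y n| ≤ ∑ b, |lam pr Y b| := by
  classical
  unfold LF
  refine (abs_sum_le_sum_abs _ _).trans (sum_le_sum fun b _ => ?_)
  split_ifs
  · exact le_refl _
  · simp

/-- powers of the logarithm are small -/
private theorem two_log (Z : ℝ) (hZ : 1 ≤ Z) :
    (Z * (1 + Real.log Z) ^ 98) ^ 2 ≤ 1961 ^ 196 * Z ^ (21 / 10 : ℝ) := by
  have hZ0 : 0 < Z := by linarith
  have hs : (0 : ℝ) < 1 / 1960 := by norm_num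
  have h1 : Real.log Z ≤ Z ^ (1 / 1960 : ℝ) / (1 / 1960) := Real.log_le_rpow_div hZ0.le hs
  have h2 : 1 ≤ Z ^ (1 / 1960 : ℝ) := Real.one_le_rpow hZ hs.le
  have h3 : 1 + Real.log Z ≤ 1961 * Z ^ (1 / 1960 : ℝ) := by
    have : Z ^ (1 / 1960 : ℝ) / (1 / 1960) = 1960 * Z ^ (1 / 1960 : ℝ) := by ring
    rw [this] at h1
    linarith
  have h4 : 0 ≤ 1 + Real.log Z := by
    have := Real.log_nonneg hZ
    linarith
  have h5 : (1 + Real.log Z) ^ 98 ≤ (1961 * Z ^ (1 / 1960 : ℝ)) ^ 98 := pow_le_pow_left₀ h4 h3 98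
  have h6 : 0 ≤ Z * (1 + Real.log Z) ^ 98 := mul_nonneg hZ0.le (pow_nonneg h4 98)
  have h7 : (Z * (1 + Real.log Z) ^ 98) ^ 2 ≤ (Z * (1961 * Z ^ (1 / 1960 : ℝ)) ^ 98) ^ 2 :=
    pow_le_pow_left₀ h6 (mul_le_mul_of_nonneg_left h5 hZ0.le) 2
  refine h7.trans (le_of_eq ?_)
  have h8 : (Z ^ (1 / 1960 : ℝ)) ^ 196 = Z ^ (1 / 10 : ℝ) := by
    rw [← Real.rpow_natCast, ← Real.rpow_mul hZ0.le]
    norm_num
  have h9 : Z ^ (21 / 10 : ℝ) = Z ^ 2 * Z ^ (1 / 10 : ℝ) := by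
    rw [← Real.rpow_natCast Z 2, ← Real.rpow_add hZ0]
    norm_num
  rw [h9, ← h8]
  generalize (1961 : ℝ) = c
  ring

private theorem two_asym (K c : ℝ) (hc : 0 < c) : ∃ M₁ : ℕ, ∀ M : ℕ, M₁ ≤ M → 1 ≤ M →
    K * ((RR M ^ (1055 / 1000 : ℝ)) * (1 + Real.log (RR M ^ (1055 / 1000 : ℝ))) ^ 98) ^ 2 ≤
      c * M := by
  have hA : (0 : ℝ) < 1961 ^ 196 := by positivity
  generalize hAd : (1961 : ℝ) ^ 196 = A at hA
  have ht := (tendsto_rpow_atTop (show (0 : ℝ) < 2 / 5 by norm_num)).comp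
    tendsto_natCast_atTop_atTop
  obtain ⟨M₁, hM₁⟩ := Filter.eventually_atTop.1
    (ht.eventually_ge_atTop (|K| * A / c))
  refine ⟨M₁, fun M hM h1 => ?_⟩
  have hM1 : (1 : ℝ) ≤ M := by exact_mod_cast h1
  have hM0 : (0 : ℝ) < M := by linarith
  have hRR : RR M ^ (1055 / 1000 : ℝ) = (M : ℝ) ^ (2499 / 10000 * (1055 / 1000) : ℝ) := by
    rw [RR, ← Real.rpow_mul hM0.le]
  set Z := RR M ^ (1055 / 1000 : ℝ) with hZ
  have hZ1 : 1 ≤ Z := by
    rw [hRR]
    exact Real.one_le_rpow hM1 (by norm_num)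
  have h2 := two_log Z hZ1
  rw [hAd] at h2
  have h3 : Z ^ (21 / 10 : ℝ) ≤ (M : ℝ) ^ (3 / 5 : ℝ) := by
    rw [hRR, ← Real.rpow_mul hM0.le]
    exact Real.rpow_le_rpow_of_exponent_le hM1 (by norm_num)
  have h4 : |K| * A / c ≤ (M : ℝ) ^ (2 / 5 : ℝ) := hM₁ M hM
  have h5 : (M : ℝ) = (M : ℝ) ^ (2 / 5 : ℝ) * (M : ℝ) ^ (3 / 5 : ℝ) := by
    rw [← Real.rpow_add hM0]
    norm_num
  have h6 : |K| * A ≤ c * (M : ℝ) ^ (2 / 5 : ℝ) := by
    rw [div_le_iff₀ hc] at h4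
    linarith
  have h7 : 0 ≤ (M : ℝ) ^ (3 / 5 : ℝ) := by positivity
  have h8 : 0 ≤ (Z * (1 + Real.log Z) ^ 98) ^ 2 := sq_nonneg _
  calc K * (Z * (1 + Real.log Z) ^ 98) ^ 2 ≤ |K| * (Z * (1 + Real.log Z) ^ 98) ^ 2 :=
        mul_le_mul_of_nonneg_right (le_abs_self K) h8
    _ ≤ |K| * (A * (M : ℝ) ^ (3 / 5 : ℝ)) := by
        refine mul_le_mul_of_nonneg_left (h2.trans ?_) (abs_nonneg K)
        exact mul_le_mul_of_nonneg_left h3 hA.le
    _ = |K| * A * (M : ℝ) ^ (3 / 5 : ℝ) := by ring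
    _ ≤ c * (M : ℝ) ^ (2 / 5 : ℝ) * (M : ℝ) ^ (3 / 5 : ℝ) := mul_le_mul_of_nonneg_right h6 h7
    _ = c * M := by rw [mul_assoc, ← h5]

private theorem two_log5 : ∃ M₁ : ℕ, ∀ M : ℕ, M₁ ≤ M →
    Real.log (5 * M) ≤ 10001 / 10000 * Real.log M ∧ 1 ≤ Real.log M ∧ 1 ≤ M := by
  have ht := Real.tendsto_log_atTop.comp tendsto_natCast_atTop_atTop
  obtain ⟨M₁, hM₁⟩ := Filter.eventually_atTop.1
    (ht.eventually_ge_atTop (10000 * Real.log 5 + 1))
  refine ⟨M₁ + 1, fun M hM => ?_⟩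
  have h1 : 10000 * Real.log 5 + 1 ≤ Real.log M := hM₁ M (by omega)
  have h5 : 0 ≤ Real.log 5 := Real.log_nonneg (by norm_num)
  have hM0 : (0 : ℝ) < M := by exact_mod_cast (by omega : 0 < M)
  refine ⟨?_, by linarith, by omega⟩
  rw [Real.log_mul (by norm_num) hM0.ne']
  linarith

private theorem two_SS (W M : ℕ) (hM : 1 ≤ M) :
    SS W M = (W.totient : ℝ) / W * (2499 / 10000 * Real.log M) := by
  have hM0 : (0 : ℝ) < M := by exact_mod_cast (by omega : 0 < M)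
  rw [SS, RR, Real.log_rpow hM0]

private theorem two_SS1 (W : ℕ) (hW : 0 < W) : ∃ M₁ : ℕ, ∀ M : ℕ, M₁ ≤ M → 1 ≤ M →
    1 ≤ SS W M := by
  have hφ : (0 : ℝ) < (W.totient : ℝ) / W := by
    have h1 : (0 : ℝ) < W.totient := by exact_mod_cast Nat.totient_pos.2 hW
    have h2 : (0 : ℝ) < W := by exact_mod_cast hW
    positivity
  have ht := Real.tendsto_log_atTop.comp tendsto_natCast_atTop_atTop
  obtain ⟨M₁, hM₁⟩ := Filter.eventually_atTop.1
    (ht.eventually_ge_atTop (10000 / 2499 / ((W.totient : ℝ) / W)))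
  refine ⟨M₁, fun M hM h1 => ?_⟩
  rw [two_SS W M h1]
  have h2 : 10000 / 2499 / ((W.totient : ℝ) / W) ≤ Real.log M := hM₁ M hM
  rw [div_le_iff₀ hφ] at h2
  nlinarith

/-- the final numerical contradiction -/
private theorem two_contra (T L L5 I ε S R : ℝ) (hT : 0 < T) (hL : 1 ≤ L) (hI : 0 < I)
    (hε : ε = I / 1000000) (hL5 : L5 ≤ 10001 / 10000 * L) (hL50 : 0 ≤ L5)
    (hS : (10002 / 10000 : ℝ) * I < S) (hR : R ≤ ε * T)
    (h : T * L * (S - 49 * (2499 / 10000) * ε) ≤ L5 * (T * (I + ε) + R)) : False := by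
  have h0 : 0 < T * L := mul_pos hT (by linarith)
  have hε0 : 0 < ε := by rw [hε]; positivity
  have h1 : L5 * (T * (I + ε) + R) ≤ L5 * (T * (I + 2 * ε)) := by
    refine mul_le_mul_of_nonneg_left ?_ hL50
    linarith
  have h2 : L5 * (T * (I + 2 * ε)) ≤ 10001 / 10000 * L * (T * (I + 2 * ε)) :=
    mul_le_mul_of_nonneg_right hL5 (by positivity)
  have h3 : T * L * (S - 49 * (2499 / 10000) * ε) ≤ T * L * (10001 / 10000 * (I + 2 * ε)) := by
    linarith
  have h4 : S - 49 * (2499 / 10000) * ε ≤ 10001 / 10000 * (I + 2 * ε) :=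
    le_of_mul_le_mul_left h3 h0
  rw [hε] at h4
  linarith

theorem hTwo : StTwo := by
  intro hMin hLow hNumR hEta hLm hOkw hBump ι _ _ sh hcard
  classical
  obtain ⟨ω, hω, hJ, -⟩ := hBump 1 one_pos
  obtain ⟨N, hN0, hNm, hNum⟩ := hNumR
  obtain ⟨hI, hO⟩ := hNum ι hcard
  have hε : 0 < IR ι / 1000000 := by positivity
  obtain ⟨w1, hw1⟩ := hMin ω hω hJ ι sh hcard _ hε
  choose w2 hw2 using fun m : ι => hLow ω hω hJ ι sh m hcard N hN0 hNm _ hε
  obtain ⟨B, hB, hOk⟩ := hOkw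
  obtain ⟨hFN, hFN0, hOk'⟩ := hOk ι hcard
  refine ⟨w1 + ∑ m, w2 m + 98, fun w hw W v hGd n₀ => ?_⟩
  have hwm : ∀ m, w2 m ≤ w := fun m => by
    have := Finset.single_le_sum (f := w2) (fun _ _ => Nat.zero_le _) (mem_univ m)
    omega
  have hW : 0 < W := hGd.dv.1
  obtain ⟨M1, hM1⟩ := hw1 w (by omega) W v hGd
  choose M2 hM2 using fun m => hw2 m w (hwm m) W v hGd
  obtain ⟨M3, hM3⟩ := hOk' sh w W v (by omega) hGd
  obtain ⟨C, hC, M4, hM4⟩ := hEta ω hω w
  have hWr : (0 : ℝ) < W := by exact_mod_cast hW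
  have hφr : (0 : ℝ) < W.totient := by exact_mod_cast Nat.totient_pos.2 hW
  obtain ⟨M5, hM5⟩ := two_asym (5 * C * B ^ 2) (IR ι / 1000000 * JJ ω / W) (by positivity)
  obtain ⟨M6, hM6⟩ := two_log5
  obtain ⟨M7, hM7⟩ := two_SS1 W hW
  by_contra hcon
  push Not at hcon
  set M := M1 + ∑ m, M2 m + M3 + M4 + M5 + M6 + M7 + n₀ + w + 2 with hMd
  have hM2le : ∀ m, M2 m ≤ M := fun m => by
    have := Finset.single_le_sum (f := M2) (fun _ _ => Nat.zero_le _) (mem_univ m)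
    omega
  have hMpos : 1 ≤ M := by omega
  have hMr : (1 : ℝ) ≤ M := by exact_mod_cast hMpos
  have hA := hM1 M (by omega)
  have hL := fun m => hM2 m M (hM2le m)
  obtain ⟨-, -, hRR, htot, -⟩ := hM3 M (by omega)
  obtain ⟨he0, he1, hf0, -, hfp, hfe⟩ := hM4 M (by omega)
  have h5 := hM5 M (by omega) hMpos
  obtain ⟨hl5, hl1, -⟩ := hM6 M (by omega)
  have hS1 := hM7 M (by omega) hMpos
  set F := (range (4 * M + 1)).filter (fun n => n ≡ v [MOD W]) with hF
  set LL : ℕ → ℝ := fun n => LF (pw W M) sh (YY W M) n with hLL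
  -- pointwise bound
  have hl50 : 0 ≤ Real.log (5 * M) := Real.log_nonneg (by linarith)
  have hpt : ∀ n ∈ F, ∑ m, fM ω M (n + sh m) ≤ Real.log (5 * M) * (eta ω M n + C / M) := by
    intro n hn
    have hnv : n ≡ v [MOD W] := (mem_filter.1 hn).2
    by_cases hz : ∀ m, fM ω M (n + sh m) = 0
    · rw [Finset.sum_eq_zero fun m _ => hz m]
      have := he0 n
      positivity
    · push Not at hz
      obtain ⟨m, hm⟩ := hz
      obtain ⟨hp, hr⟩ := hfp _ hm
      have hshw : sh m < w := hGd.lt m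
      have hgt : M < n + sh m := (mem_Ioc.1 hr).1
      have hn0 : n₀ ≤ n := by omega
      have hoth : ∀ m', m' ≠ m → fM ω M (n + sh m') = 0 := by
        intro m' hne
        by_contra hne'
        exact hcon n hn0 hnv m m' (Ne.symm hne) hp (hfp _ hne').1
      rw [Finset.sum_eq_single m (fun m' _ hne => hoth m' hne) (fun h => absurd (mem_univ m) h)]
      exact hfe n (sh m) hshw.le
  -- sum over the n
  have hsum : ∑ m, ∑ n ∈ F, fM ω M (n + sh m) * LL n ^ 2 ≤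
      Real.log (5 * M) * (∑ n ∈ F, eta ω M n * LL n ^ 2 + C / M * ∑ n ∈ F, LL n ^ 2) := by
    rw [sum_comm]
    have e1 : Real.log (5 * M) * (∑ n ∈ F, eta ω M n * LL n ^ 2 + C / M * ∑ n ∈ F, LL n ^ 2) =
        ∑ n ∈ F, Real.log (5 * M) * (eta ω M n + C / M) * LL n ^ 2 := by
      rw [mul_sum (s := F) (a := C / (M : ℝ)), ← sum_add_distrib, mul_sum]
      exact sum_congr rfl fun n _ => by ring
    rw [e1]
    refine sum_le_sum fun n hn => ?_
    rw [← sum_mul]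
    exact mul_le_mul_of_nonneg_right (hpt n hn) (sq_nonneg _)
  -- the trivial bound
  have hZ1 : 1 ≤ RR M ^ (1055 / 1000 : ℝ) := Real.one_le_rpow hRR.le (by norm_num)
  have hOkp := hM3 M (by omega)
  have hlm := (hLm (Pw W M) ι (pw W M) (YY W M) B (RR M ^ (1055 / 1000 : ℝ)) hOkp.1.prime
    hOkp.1.inj hZ1 (fun a => hFN _ _) (fun a ha => ((htot a).1 (hFN0 _ _ ha).2).le)).2.2
  rw [hcard] at hlm
  have hLn : ∀ n, LL n ^ 2 ≤ B ^ 2 * (RR M ^ (1055 / 1000 : ℝ) *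
      (1 + Real.log (RR M ^ (1055 / 1000 : ℝ))) ^ 98) ^ 2 := by
    intro n
    have h1 : |LL n| ≤ B * (RR M ^ (1055 / 1000 : ℝ)) *
      (1 + Real.log (RR M ^ (1055 / 1000 : ℝ))) ^ (2 * 49) := (two_LF _ _ _ _).trans hlm
    have h2 : LL n ^ 2 ≤ (B * (RR M ^ (1055 / 1000 : ℝ)) *
      (1 + Real.log (RR M ^ (1055 / 1000 : ℝ))) ^ (2 * 49)) ^ 2 := by
      rw [← sq_abs]
      exact pow_le_pow_left₀ (abs_nonneg _) h1 2
    refine h2.trans (le_of_eq ?_)
    ring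
  have hR : C / M * ∑ n ∈ F, LL n ^ 2 ≤ IR ι / 1000000 * (JJ ω * M / W * SS W M ^ 49) := by
    set Q := (RR M ^ (1055 / 1000 : ℝ) *
      (1 + Real.log (RR M ^ (1055 / 1000 : ℝ))) ^ 98) ^ 2 with hQ
    have hQ0 : 0 ≤ Q := sq_nonneg _
    have h1 : ∑ n ∈ F, LL n ^ 2 ≤ (4 * M + 1) * (B ^ 2 * Q) := by
      refine (sum_le_sum fun n _ => hLn n).trans ?_
      rw [sum_const, nsmul_eq_mul]
      refine mul_le_mul_of_nonneg_right ?_ (by positivity)
      have : F.card ≤ 4 * M + 1 := (card_filter_le _ _).trans (by rw [card_range])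
      exact_mod_cast this
    have h2 : C / M * ∑ n ∈ F, LL n ^ 2 ≤ 5 * C * B ^ 2 * Q := by
      have hM0 : (0 : ℝ) < M := by linarith
      calc C / M * ∑ n ∈ F, LL n ^ 2 ≤ C / M * ((4 * M + 1) * (B ^ 2 * Q)) :=
            mul_le_mul_of_nonneg_left h1 (by positivity)
        _ ≤ C / M * ((5 * M) * (B ^ 2 * Q)) := by
            refine mul_le_mul_of_nonneg_left ?_ (by positivity)
            exact mul_le_mul_of_nonneg_right (by linarith) (by positivity)
        _ = 5 * C * B ^ 2 * Q := by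
            field_simp
    have h3 : (1 : ℝ) ≤ SS W M ^ 49 := one_le_pow₀ hS1
    refine (h2.trans h5).trans ?_
    have h4 : 0 ≤ IR ι / 1000000 * (JJ ω * M / W) := by positivity
    calc IR ι / 1000000 * JJ ω / W * M = IR ι / 1000000 * (JJ ω * M / W) * 1 := by ring
      _ ≤ IR ι / 1000000 * (JJ ω * M / W) * SS W M ^ 49 := mul_le_mul_of_nonneg_left h3 h4
      _ = IR ι / 1000000 * (JJ ω * M / W * SS W M ^ 49) := by ring
  -- the lower bound
  set T := JJ ω * M / W * SS W M ^ 49 with hT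
  have hT0 : 0 < T := by
    have : 0 < SS W M := by linarith
    rw [hT]
    positivity
  have hlow : T * Real.log M * (∑ m : ι, (2499 / 10000) * OR m (om N) -
      49 * (2499 / 10000) * (IR ι / 1000000)) ≤ ∑ m, ∑ n ∈ F, fM ω M (n + sh m) * LL n ^ 2 := by
    have e1 : T * Real.log M * (∑ m : ι, (2499 / 10000) * OR m (om N) -
        49 * (2499 / 10000) * (IR ι / 1000000)) =
        ∑ m : ι, JJ ω * M / W.totient * SS W M ^ 50 * (OR m (om N) - IR ι / 1000000) := by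
      have e2 : JJ ω * M / W.totient * SS W M ^ 50 = T * (2499 / 10000 * Real.log M) := by
        rw [hT, pow_succ]
        conv_lhs => rw [two_SS W M hMpos]
        conv_rhs => rw [two_SS W M hMpos]
        field_simp
      have e3 : ∑ m : ι, (OR m (om N) - IR ι / 1000000) =
          ∑ m : ι, OR m (om N) - 49 * (IR ι / 1000000) := by
        rw [sum_sub_distrib, sum_const, card_univ, hcard, nsmul_eq_mul]
        push_cast
        ring
      have e4 : ∑ m : ι, T * (2499 / 10000 * Real.log M) * (OR m (om N) - IR ι / 1000000) =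
          T * (2499 / 10000 * Real.log M) * ∑ m : ι, (OR m (om N) - IR ι / 1000000) :=
        (mul_sum _ _ _).symm
      have e5 : ∑ m : ι, (2499 / 10000) * OR m (om N) = (2499 / 10000) * ∑ m : ι, OR m (om N) :=
        (mul_sum _ _ _).symm
      rw [e2, e4, e5, e3]
      ring
    rw [e1]
    exact sum_le_sum fun m _ => hL m
  have hSgt : (10002 / 10000 : ℝ) * IR ι < ∑ m : ι, (2499 / 10000) * OR m (om N) := by
    have hne : (univ : Finset ι).Nonempty := by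
      rw [← card_pos, card_univ, hcard]; norm_num
    have h1 : ∑ m : ι, (10002 / 10000 : ℝ) * IR ι / 49 < ∑ m : ι, (2499 / 10000) * OR m (om N) := by
      refine sum_lt_sum_of_nonempty hne fun m _ => ?_
      have := hO m
      rw [div_lt_iff₀ (by norm_num)]
      linarith
    rw [sum_const, card_univ, hcard, nsmul_eq_mul] at h1
    push_cast at h1
    linarith
  have hfin : T * Real.log M * (∑ m : ι, (2499 / 10000) * OR m (om N) -
      49 * (2499 / 10000) * (IR ι / 1000000)) ≤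
      Real.log (5 * M) * (T * (IR ι + IR ι / 1000000) + C / M * ∑ n ∈ F, LL n ^ 2) := by
    refine (hlow.trans hsum).trans ?_
    refine mul_le_mul_of_nonneg_left ?_ hl50
    linarith
  exact two_contra T (Real.log M) (Real.log (5 * M)) (IR ι) (IR ι / 1000000) _ _ hT0 hl1 hI rfl
    hl5 hl50 hSgt hR hfin

end Pool.Agent.Helper27.BG
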